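import Mathlib

set_option autoImplicit false

open Finset

namespace Pool.Agent.Results.MP_6532c6_co.Separation

/-! ### Partitions and their order -/

/-- A partition (of some positive integer): a nonempty finite multiset of positive integers. -/
def IsPartition (l : Multiset ℕ) : Prop := l ≠ 0 ∧ ∀ a ∈ l, 1 ≤ a

/-- `l'` arises from `l` by replacing one part `a` by a partition `p` of `a`. -/
def Step (l l' : Multiset ℕ) : Prop :=
  ∃ (a : ℕ) (r p : Multiset ℕ), l = a ::ₘ r ∧ l' = p + r ∧ IsPartition p ∧ p.sum = a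

/-- `l'` is a refinement of `l`. -/
def IsRefinement (l l' : Multiset ℕ) : Prop := Relation.ReflTransGen Step l l'

/-- The order on partitions: `l ≤ l'` if `l'` is a refinement of a partition which arises from `l`
by increasing parts. -/
def PLe (l l' : Multiset ℕ) : Prop :=
  ∃ m, Multiset.Rel (fun a b => a ≤ b) l m ∧ IsRefinement m l'

lemma step_cons {l l' : Multiset ℕ} (c : ℕ) (h : Step l l') : Step (c ::ₘ l) (c ::ₘ l') := by
  obtain ⟨a, r, p, rfl, rfl, hp, hs⟩ := h
  exact ⟨a, c ::ₘ r, p, Multiset.cons_swap _ _ _, by rw [Multiset.add_cons], hp, hs⟩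

lemma refinement_cons {l l' : Multiset ℕ} (c : ℕ) (h : IsRefinement l l') :
    IsRefinement (c ::ₘ l) (c ::ₘ l') := by
  induction h with
  | refl => exact Relation.ReflTransGen.refl
  | tail _ h2 ih => exact ih.tail (step_cons c h2)

lemma refinement_add {l l' : Multiset ℕ} (s : Multiset ℕ) (h : IsRefinement l l') :
    IsRefinement (s + l) (s + l') := by
  induction s using Multiset.induction_on with
  | empty => simpa using h
  | cons a s ih =>
    rw [Multiset.cons_add, Multiset.cons_add]
    exact refinement_cons a ih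

lemma pLe_single {a : ℕ} {m : Multiset ℕ} (hm : IsPartition m) (h : a ≤ m.sum) : PLe {a} m :=
  ⟨{m.sum}, Multiset.Rel.cons h Multiset.Rel.zero,
    Relation.ReflTransGen.single ⟨m.sum, 0, m, by simp, by simp, hm, rfl⟩⟩

lemma pLe_cons {a b : ℕ} {l m : Multiset ℕ} (hab : a ≤ b) (h : PLe l m) :
    PLe (a ::ₘ l) (b ::ₘ m) := by
  obtain ⟨m', h1, h2⟩ := h
  exact ⟨b ::ₘ m', Multiset.Rel.cons hab h1, refinement_cons b h2⟩

lemma pLe_cons_sub {a b : ℕ} {l m : Multiset ℕ} (hb : 0 < b) (hab : b < a)
    (h : PLe ((a - b) ::ₘ l) m) : PLe (a ::ₘ l) (b ::ₘ m) := by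
  obtain ⟨m', h1, h2⟩ := h
  rw [Multiset.rel_cons_left] at h1
  obtain ⟨x, m1, hx, h3, rfl⟩ := h1
  refine ⟨(b + x) ::ₘ m1, Multiset.Rel.cons (by omega) h3, ?_⟩
  refine Relation.ReflTransGen.head ⟨b + x, m1, {b, x}, rfl, rfl, ⟨by simp, ?_⟩, ?_⟩ ?_
  · intro y hy
    simp only [Multiset.insert_eq_cons, Multiset.mem_cons, Multiset.mem_singleton] at hy
    rcases hy with rfl | rfl <;> omega
  · simp
  · have h4 : ({b, x} : Multiset ℕ) + m1 = b ::ₘ (x ::ₘ m1) := by
      simp [Multiset.insert_eq_cons, Multiset.cons_add, Multiset.singleton_add]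
    rw [h4]
    exact refinement_cons b h2

/-- The reduction of the parts. -/
lemma reduce {a b : ℕ} {l m : Multiset ℕ} (hb : 0 < b) (hm : ∀ x ∈ m, 1 ≤ x)
    (h : ¬ PLe (a ::ₘ l) (b ::ₘ m)) :
    (if 0 < a - b then (a - b) ::ₘ l else l) ≠ 0 ∧
      (m ≠ 0 → ¬ PLe (if 0 < a - b then (a - b) ::ₘ l else l) m) := by
  have hbm : IsPartition (b ::ₘ m) := by
    refine ⟨Multiset.cons_ne_zero, ?_⟩
    intro x hx
    rcases Multiset.mem_cons.mp hx with rfl | hx
    · exact hb
    · exact hm x hx
  constructor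
  · split_ifs with h1
    · exact Multiset.cons_ne_zero
    · rintro rfl
      apply h
      refine pLe_single hbm ?_
      rw [Multiset.sum_cons]
      omega
  · intro _ h2
    apply h
    split_ifs at h2 with h1
    · exact pLe_cons_sub hb (by omega) h2
    · exact pLe_cons (by omega) h2

/-- A partition with many parts is large. -/
lemma pLe_of_card (l : Multiset ℕ) : ∀ m : Multiset ℕ, IsPartition l → IsPartition m →
    l.sum ≤ Multiset.card m → PLe l m := by
  induction l using Multiset.induction_on with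
  | empty => intro m h _ _; exact absurd rfl h.1
  | cons a l ih =>
    intro m hl hm hcard
    have hcs : ∀ s : Multiset ℕ, (∀ x ∈ s, 1 ≤ x) → Multiset.card s ≤ s.sum := by
      intro s hs
      have := Multiset.card_nsmul_le_sum hs
      simpa using this
    by_cases hl0 : l = 0
    · subst hl0
      refine pLe_single hm ?_
      rw [Multiset.sum_cons, Multiset.sum_zero, add_zero] at hcard
      exact le_trans hcard (hcs m hm.2)
    · rw [Multiset.sum_cons] at hcard
      have hlp : IsPartition l := ⟨hl0, fun x hx => hl.2 x (Multiset.mem_cons_of_mem hx)⟩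
      have hls : 1 ≤ l.sum := by
        have h1 := hcs l hlp.2
        have h2 := Multiset.card_pos.mpr hl0
        omega
      obtain ⟨s, hs⟩ : ∃ s, s ∈ Multiset.powersetCard a m := by
        rw [← Multiset.card_pos_iff_exists_mem, Multiset.card_powersetCard]
        exact Nat.choose_pos (by omega)
      obtain ⟨hs, hsc⟩ := Multiset.mem_powersetCard.mp hs
      obtain ⟨m1, rfl⟩ := Multiset.le_iff_exists_add.mp hs
      rw [Multiset.card_add, hsc] at hcard
      have ha : 1 ≤ a := hl.2 a (Multiset.mem_cons_self a l)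
      have hm1 : IsPartition m1 := ⟨fun h0 => by
        rw [h0, Multiset.card_zero] at hcard; omega,
        fun x hx => hm.2 x (Multiset.mem_add.mpr (Or.inr hx))⟩
      obtain ⟨m', h1, h2⟩ := ih m1 hlp hm1 (by omega)
      have hsp : IsPartition s := ⟨fun h0 => by
        rw [h0, Multiset.card_zero] at hsc; omega,
        fun x hx => hm.2 x (Multiset.mem_add.mpr (Or.inl hx))⟩
      refine ⟨s.sum ::ₘ m', Multiset.Rel.cons (by rw [← hsc]; exact hcs s hsp.2) h1, ?_⟩
      exact Relation.ReflTransGen.head ⟨s.sum, m', s, rfl, rfl, hsp, rfl⟩ (refinement_add s h2)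


/-! ### The graphs -/

/-- The positive values of `k`. -/
def parts {κ : Type} [Fintype κ] (k : κ → ℕ) : Multiset ℕ :=
  (univ.val.map k).filter (fun a => 0 < a)

lemma parts_eq {κ : Type} [Fintype κ] [DecidableEq κ] (k : κ → ℕ) (j : κ) (a : ℕ) :
    parts (Function.update k j a) =
      if 0 < a then a ::ₘ ((univ.erase j).val.map k).filter (fun a => 0 < a)
      else ((univ.erase j).val.map k).filter (fun a => 0 < a) := by
  unfold parts
  have h1 : (univ : Finset κ).val = j ::ₘ (univ.erase j).val := by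
    rw [← Finset.insert_val_of_notMem (Finset.notMem_erase j univ),
      Finset.insert_erase (mem_univ j)]
  have h2 : (univ.erase j).val.map (Function.update k j a) = (univ.erase j).val.map k := by
    refine Multiset.map_congr rfl fun x hx => ?_
    rw [Function.update_of_ne]
    rintro rfl
    exact Finset.notMem_erase x univ hx
  rw [h1, Multiset.map_cons, h2, Function.update_self]
  split_ifs with h
  · rw [Multiset.filter_cons_of_pos _ h]
  · rw [Multiset.filter_cons_of_neg _ h]

lemma map_univ_eq {ι : Type} [Fintype ι] [DecidableEq ι] (m : ι → ℕ) (i : ι) :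
    (univ.val.map m : Multiset ℕ) =
      m i ::ₘ ((univ : Finset {j // j ≠ i}).val.map fun j => m j.1) := by
  have h1 : (univ : Finset ι).val = i ::ₘ (univ.erase i).val := by
    rw [← Finset.insert_val_of_notMem (Finset.notMem_erase i univ),
      Finset.insert_erase (mem_univ i)]
  have h2 : (univ.erase i).val = (univ : Finset {j // j ≠ i}).val.map (fun j => j.1) := by
    have h3 : (univ : Finset {j // j ≠ i}).map (Function.Embedding.subtype _) = univ.erase i := by
      ext x
      simp
    rw [← h3]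
    rfl
  rw [h1, Multiset.map_cons, h2, Multiset.map_map]
  rfl

/-- `G` has a proper colouring from the lists `L`. -/
def Colourable {V C : Type} (G : SimpleGraph V) (L : V → Finset C) : Prop :=
  ∃ f : V → C, (∀ v, f v ∈ L v) ∧ ∀ u v, G.Adj u v → f u ≠ f v

/-- The graph on the roots `R` and the copies `Vt φ`. -/
def joinGraph {R Φ : Type} {Vt : Φ → Type} (T : Φ → Finset R) (G : ∀ φ, SimpleGraph (Vt φ)) :
    SimpleGraph (R ⊕ Σ φ, Vt φ) where
  Adj u v := (∃ (r : R) (φ : Φ) (x : Vt φ), r ∈ T φ ∧ ((u = Sum.inl r ∧ v = Sum.inr ⟨φ, x⟩) ∨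
      (u = Sum.inr ⟨φ, x⟩ ∧ v = Sum.inl r))) ∨
    ∃ (φ : Φ) (x y : Vt φ), (G φ).Adj x y ∧ u = Sum.inr ⟨φ, x⟩ ∧ v = Sum.inr ⟨φ, y⟩
  symm := ⟨by
    rintro u v (⟨r, φ, x, hr, h⟩ | ⟨φ, x, y, h, hu, hv⟩)
    · exact Or.inl ⟨r, φ, x, hr, h.symm.imp (fun h => ⟨h.2, h.1⟩) (fun h => ⟨h.2, h.1⟩)⟩
    · exact Or.inr ⟨φ, y, x, h.symm, hv, hu⟩⟩
  loopless := ⟨by
    rintro u (⟨r, φ, x, hr, ⟨h1, h2⟩ | ⟨h1, h2⟩⟩ | ⟨φ, x, y, h, hu, hv⟩)
    · rw [h1] at h2; cases h2
    · rw [h1] at h2; cases h2
    · rw [hu] at hv
      have h1 : (⟨φ, x⟩ : Σ φ, Vt φ) = ⟨φ, y⟩ := Sum.inr_injective hv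
      have h2 : x = y := by
        have := (Sigma.mk.inj_iff.mp h1).2
        exact eq_of_heq this
      rw [h2] at h
      exact (G φ).loopless.irrefl y h⟩

theorem core (n : ℕ) : ∀ (ι : Type) [Fintype ι] [DecidableEq ι] (m : ι → ℕ), Fintype.card ι = n →
    (∀ i, 0 < m i) → ∃ (V : Type) (_ : Fintype V) (G : SimpleGraph V),
      (∃ (C : Type) (_ : DecidableEq C) (L : V → Finset C) (cls : C → ι),
        (∀ v i, ((L v).filter fun c => cls c = i).card = m i) ∧ ¬ Colourable G L) ∧
      (∀ (κ : Type) [Fintype κ] [DecidableEq κ] (k : κ → ℕ), parts k ≠ 0 →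
        (n ≠ 0 → ¬ PLe (parts k) (univ.val.map m)) →
        ∀ (C : Type) [DecidableEq C] (L : V → Finset C) (cls : C → κ),
          (∀ v c, k c ≤ ((L v).filter fun x => cls x = c).card) → Colourable G L) := by
  induction n with
  | zero =>
    intro ι _ _ m hι hm
    have hempty : IsEmpty ι := Fintype.card_eq_zero_iff.mp hι
    refine ⟨Unit, inferInstance, ⊥, ⟨Empty, inferInstance, fun _ => ∅, fun c => c.elim,
      fun v i => (hempty.false i).elim, ?_⟩, ?_⟩
    · rintro ⟨f, -, -⟩
      exact (f ()).elim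
    · intro κ _ _ k hk _ C _ L cls hL
      obtain ⟨a, ha⟩ := Multiset.exists_mem_of_ne_zero hk
      obtain ⟨ha1, ha2⟩ := Multiset.mem_filter.mp ha
      obtain ⟨j, -, rfl⟩ := Multiset.mem_map.mp ha1
      have h1 := hL () j
      have h2 : ((L ()).filter fun x => cls x = j).Nonempty := card_pos.mp (by omega)
      obtain ⟨c, hc⟩ := h2
      exact ⟨fun _ => c, fun _ => (mem_filter.mp hc).1, fun u v h => h.elim⟩
  | succ n ih =>
    intro ι _ _ m hι hm
    have hcard : ∀ i : ι, Fintype.card {j // j ≠ i} = n := by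
      intro i
      rw [Fintype.card_subtype_compl, Fintype.card_subtype_eq, hι]
      rfl
    have ih' := fun i : ι => ih {j // j ≠ i} (fun j => m j.1) (hcard i) (fun j => hm j.1)
    choose Vt hVt Gt hbad hgood using ih'
    choose Ct hCt Lt clst hLt hbadt using hbad
    classical
    -- the roots
    let R := Fin (∑ i, (m i - 1) + 1)
    let Φ := R → Σ i : ι, Fin (m i)
    have hpig : ∀ φ : Φ, ∃ i : ι, ∃ T : Finset R, T.card = m i ∧ ∀ r ∈ T, (φ r).1 = i := by
      intro φ
      have h1 : ∃ i : ι, m i ≤ (univ.filter fun r : R => (φ r).1 = i).card := by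
        by_contra hcon
        push Not at hcon
        have h2 : (univ : Finset R).card = ∑ i, (univ.filter fun r : R => (φ r).1 = i).card :=
          Finset.card_eq_sum_card_fiberwise fun _ _ => mem_univ _
        have h3 : ∑ i, (univ.filter fun r : R => (φ r).1 = i).card ≤ ∑ i, (m i - 1) :=
          Finset.sum_le_sum fun i _ => by have := hcon i; omega
        rw [card_univ, Fintype.card_fin] at h2
        omega
      obtain ⟨i, hi⟩ := h1
      obtain ⟨T, hT, hTc⟩ := exists_subset_card_eq hi
      exact ⟨i, T, hTc, fun r hr => (mem_filter.mp (hT hr)).2⟩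
    choose idx T hTc hT using hpig
    refine ⟨R ⊕ Σ φ : Φ, Vt (idx φ), ?_, joinGraph T fun φ => Gt (idx φ), ?_, ?_⟩
    · have := fun φ : Φ => hVt (idx φ)
      infer_instance
    · -- the bad lists
      let L : (R ⊕ Σ φ : Φ, Vt (idx φ)) →
          Finset ((R × Σ i : ι, Fin (m i)) ⊕ Σ φ : Φ, Ct (idx φ)) := fun v =>
        match v with
        | Sum.inl r => univ.image fun s => Sum.inl (r, s)
        | Sum.inr ⟨φ, x⟩ => (T φ).image (fun r => Sum.inl (r, φ r)) ∪
            (Lt (idx φ) x).image (fun c => Sum.inr ⟨φ, c⟩)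
      let cls : ((R × Σ i : ι, Fin (m i)) ⊕ Σ φ : Φ, Ct (idx φ)) → ι := fun c =>
        match c with
        | Sum.inl rs => rs.2.1
        | Sum.inr ⟨φ, c⟩ => (clst (idx φ) c).1
      refine ⟨_, inferInstance, L, cls, ?_, ?_⟩
      · rintro (r | ⟨φ, x⟩) i
        · show ((univ.image fun s => (Sum.inl (r, s) : (R × Σ i : ι, Fin (m i)) ⊕
            Σ φ : Φ, Ct (idx φ))).filter fun c => cls c = i).card = m i
          rw [Finset.filter_image, card_image_of_injective]
          · show (univ.filter fun s : Σ i : ι, Fin (m i) => s.1 = i).card = m i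
            have h1 : (univ.filter fun s : Σ i : ι, Fin (m i) => s.1 = i) =
                (univ : Finset (Fin (m i))).image fun x => ⟨i, x⟩ := by
              ext ⟨a, x⟩
              simp only [mem_filter, mem_univ, true_and, mem_image]
              constructor
              · rintro rfl
                exact ⟨x, rfl⟩
              · rintro ⟨y, hy⟩
                exact (congrArg Sigma.fst hy).symm
            rw [h1, card_image_of_injective, card_univ, Fintype.card_fin]
            intro x y hxy
            exact eq_of_heq (Sigma.mk.inj_iff.mp hxy).2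
          · intro s t hst
            exact (Prod.ext_iff.mp (Sum.inl_injective hst)).2
        · show (((T φ).image (fun r => Sum.inl (r, φ r)) ∪
            (Lt (idx φ) x).image (fun c => (Sum.inr ⟨φ, c⟩ : (R × Σ i : ι, Fin (m i)) ⊕
              Σ φ : Φ, Ct (idx φ)))).filter fun c => cls c = i).card = m i
          rw [Finset.filter_union, Finset.filter_image, Finset.filter_image]
          by_cases hi : i = idx φ
          · have h1 : ((T φ).filter fun r => cls (Sum.inl (r, φ r)) = i) = T φ := by
              refine Finset.filter_true_of_mem fun r hr => ?_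
              show (φ r).1 = i
              rw [hT φ r hr, hi]
            have h2 : ((Lt (idx φ) x).filter fun c => cls (Sum.inr ⟨φ, c⟩) = i) = ∅ := by
              refine Finset.filter_false_of_mem fun c _ => ?_
              show (clst (idx φ) c).1 ≠ i
              rw [hi]
              exact (clst (idx φ) c).2
            rw [h1, h2, image_empty, union_empty, card_image_of_injective, hTc, hi]
            intro r r' hrr
            exact (Prod.ext_iff.mp (Sum.inl_injective hrr)).1
          · have h1 : ((T φ).filter fun r => cls (Sum.inl (r, φ r)) = i) = ∅ := by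
              refine Finset.filter_false_of_mem fun r hr => ?_
              show (φ r).1 ≠ i
              rw [hT φ r hr]
              exact fun h => hi h.symm
            have h2 : ((Lt (idx φ) x).filter fun c => cls (Sum.inr ⟨φ, c⟩) = i) =
                (Lt (idx φ) x).filter fun c => clst (idx φ) c = ⟨i, hi⟩ := by
              refine Finset.filter_congr fun c _ => ?_
              show (clst (idx φ) c).1 = i ↔ _
              exact ⟨fun h => Subtype.ext h, fun h => by rw [h]⟩
            rw [h1, h2, image_empty, empty_union, card_image_of_injective, hLt]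
            intro c c' hcc
            exact eq_of_heq (Sigma.mk.inj_iff.mp (Sum.inr_injective hcc)).2
      · rintro ⟨f, hf1, hf2⟩
        have h1 : ∀ r : R, ∃ s, f (Sum.inl r) = Sum.inl (r, s) := by
          intro r
          have := hf1 (Sum.inl r)
          obtain ⟨s, -, hs⟩ := mem_image.mp (show f (Sum.inl r) ∈ univ.image fun s =>
            (Sum.inl (r, s) : (R × Σ i : ι, Fin (m i)) ⊕ Σ φ : Φ, Ct (idx φ)) from this)
          exact ⟨s, hs.symm⟩
        choose φ hφ using h1
        have h2 : ∀ x : Vt (idx φ), ∃ c ∈ Lt (idx φ) x, f (Sum.inr ⟨φ, x⟩) = Sum.inr ⟨φ, c⟩ := by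
          intro x
          have h3 : f (Sum.inr ⟨φ, x⟩) ∈ (T φ).image (fun r => Sum.inl (r, φ r)) ∪
            (Lt (idx φ) x).image (fun c => (Sum.inr ⟨φ, c⟩ : (R × Σ i : ι, Fin (m i)) ⊕
              Σ φ : Φ, Ct (idx φ))) := hf1 (Sum.inr ⟨φ, x⟩)
          rcases mem_union.mp h3 with h3 | h3
          · exfalso
            obtain ⟨r, hr, hr2⟩ := mem_image.mp h3
            refine hf2 (Sum.inl r) (Sum.inr ⟨φ, x⟩) (Or.inl ⟨r, φ, x, hr, Or.inl ⟨rfl, rfl⟩⟩) ?_
            rw [hφ r, ← hr2]
          · obtain ⟨c, hc, hc2⟩ := mem_image.mp h3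
            exact ⟨c, hc, hc2.symm⟩
        choose g hg1 hg2 using h2
        refine hbadt (idx φ) ⟨g, hg1, ?_⟩
        intro x y hxy hgxy
        refine hf2 (Sum.inr ⟨φ, x⟩) (Sum.inr ⟨φ, y⟩) (Or.inr ⟨φ, x, y, hxy, rfl, rfl⟩) ?_
        rw [hg2 x, hg2 y, hgxy]
    · -- all other partitions
      intro κ _ _ k hk hple C _ L cls hL
      obtain ⟨a, ha⟩ := Multiset.exists_mem_of_ne_zero hk
      obtain ⟨ha1, ha2⟩ := Multiset.mem_filter.mp ha
      obtain ⟨j, -, rfl⟩ := Multiset.mem_map.mp ha1
      -- the colours of the roots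
      have h1 : ∀ r : R, ∃ c ∈ L (Sum.inl r), cls c = j := by
        intro r
        have h2 := hL (Sum.inl r) j
        obtain ⟨c, hc⟩ : ((L (Sum.inl r)).filter fun x => cls x = j).Nonempty :=
          card_pos.mp (by omega)
        exact ⟨c, (mem_filter.mp hc).1, (mem_filter.mp hc).2⟩
      choose f0 hf0 hf0c using h1
      have h2 : ∀ φ : Φ, Colourable (Gt (idx φ)) fun x =>
          L (Sum.inr ⟨φ, x⟩) \ (T φ).image f0 := by
        intro φ
        have hred : (if 0 < k j - m (idx φ) then
              (k j - m (idx φ)) ::ₘ ((univ.erase j).val.map k).filter (fun a => 0 < a)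
              else ((univ.erase j).val.map k).filter (fun a => 0 < a)) ≠ 0 ∧ _ :=
          reduce (a := k j) (b := m (idx φ))
            (l := ((univ.erase j).val.map k).filter (fun a => 0 < a))
            (m := (univ : Finset {j // j ≠ idx φ}).val.map fun j => m j.1)
            (hm (idx φ)) (by
              intro x hx
              obtain ⟨i, -, rfl⟩ := Multiset.mem_map.mp hx
              exact hm i.1) (by
              rw [← map_univ_eq m (idx φ)]
              have h3 := parts_eq k j (k j)
              rw [Function.update_eq_self, if_pos ha2] at h3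
              rw [← h3]
              exact hple (Nat.succ_ne_zero n))
        refine hgood (idx φ) κ (Function.update k j (k j - m (idx φ))) ?_ ?_ C _ cls ?_
        · rw [parts_eq]
          exact hred.1
        · intro hn0
          rw [parts_eq]
          refine hred.2 ?_
          intro h0
          apply hn0
          rw [Multiset.map_eq_zero, Finset.val_eq_zero] at h0
          rw [← hcard (idx φ), ← card_univ, h0, card_empty]
        · intro x c
          by_cases hc : c = j
          · subst hc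
            rw [Function.update_self]
            have h4 := hL (Sum.inr ⟨φ, x⟩) c
            have h5 : ((L (Sum.inr ⟨φ, x⟩)).filter fun y => cls y = c) \ (T φ).image f0 ⊆
                (L (Sum.inr ⟨φ, x⟩) \ (T φ).image f0).filter fun y => cls y = c := by
              intro y hy
              obtain ⟨hy1, hy2⟩ := mem_sdiff.mp hy
              obtain ⟨hy3, hy4⟩ := mem_filter.mp hy1
              exact mem_filter.mpr ⟨mem_sdiff.mpr ⟨hy3, hy2⟩, hy4⟩
            have h6 := card_le_card h5
            have h7 := Finset.le_card_sdiff ((T φ).image f0)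
              ((L (Sum.inr ⟨φ, x⟩)).filter fun y => cls y = c)
            have h8 : ((T φ).image f0).card ≤ m (idx φ) := by
              rw [← hTc φ]; exact card_image_le
            omega
          · rw [Function.update_of_ne hc]
            refine le_trans (hL (Sum.inr ⟨φ, x⟩) c) (card_le_card ?_)
            intro y hy
            obtain ⟨hy3, hy4⟩ := mem_filter.mp hy
            refine mem_filter.mpr ⟨mem_sdiff.mpr ⟨hy3, ?_⟩, hy4⟩
            intro hy5
            obtain ⟨r, -, rfl⟩ := mem_image.mp hy5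
            exact hc (hy4.symm.trans (hf0c r))
      choose g hg1 hg2 using h2
      refine ⟨fun v => match v with
        | Sum.inl r => f0 r
        | Sum.inr ⟨φ, x⟩ => g φ x, ?_, ?_⟩
      · rintro (r | ⟨φ, x⟩)
        · exact hf0 r
        · exact (mem_sdiff.mp (hg1 φ x)).1
      · rintro u v (⟨r, φ, x, hr, ⟨rfl, rfl⟩ | ⟨rfl, rfl⟩⟩ | ⟨φ, x, y, h, rfl, rfl⟩)
        · show f0 r ≠ g φ x
          intro h
          exact (mem_sdiff.mp (hg1 φ x)).2 (h ▸ mem_image_of_mem f0 hr)
        · show g φ x ≠ f0 r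
          intro h
          exact (mem_sdiff.mp (hg1 φ x)).2 (h ▸ mem_image_of_mem f0 hr)
        · exact hg2 φ x y h


/-! ### Choosability -/

/-- `L` is an `l`-assignment: the colours can be split into classes `0, …, q - 1` such that every
list contains exactly `k i` colours of the class `i`, where `k 0, …, k (q - 1)` are the parts of
`l`. -/
def IsAssignment {V C : Type} [DecidableEq C] (l : Multiset ℕ) (L : V → Finset C) : Prop :=
  ∃ (q : ℕ) (k : Fin q → ℕ) (cls : C → Fin q), (univ.val.map k : Multiset ℕ) = l ∧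
    ∀ v i, ((L v).filter fun c => cls c = i).card = k i

/-- `G` is `l`-choosable: it has a proper colouring from every `l`-assignment. -/
def Choosable {V : Type} (G : SimpleGraph V) (l : Multiset ℕ) : Prop :=
  ∀ (C : Type) [DecidableEq C] (L : V → Finset C), IsAssignment l L →
    ∃ f : V → C, (∀ v, f v ∈ L v) ∧ ∀ u v, G.Adj u v → f u ≠ f v

/-- For every partition `m` there is a graph that is not `m`-choosable, but `l`-choosable for all
partitions `l` with `¬ l ≤ m`. -/
theorem universal (m : Multiset ℕ) (hm : IsPartition m) :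
    ∃ (V : Type) (_ : Fintype V) (G : SimpleGraph V), ¬ Choosable G m ∧
      ∀ l, IsPartition l → ¬ PLe l m → Choosable G l := by
  classical
  have hmap : ((univ : Finset (Fin m.toList.length)).val.map (fun i => m.toList.get i) :
      Multiset ℕ) = m := by
    rw [Fin.univ_val_map, List.ofFn_get, Multiset.coe_toList]
  obtain ⟨V, hV, G, ⟨C, hC, L, cls, hL, hbad⟩, hgood⟩ := core (m.toList.length)
    (Fin m.toList.length) (fun i => m.toList.get i) (Fintype.card_fin _)
    (fun i => hm.2 _ (Multiset.mem_toList.mp (List.get_mem _ _)))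
  refine ⟨V, hV, G, ?_, ?_⟩
  · intro h
    exact hbad (h C L ⟨_, _, cls, hmap, hL⟩)
  · intro l hl hlm C' _ L' hL'
    obtain ⟨q, k, cls', hk, hL'⟩ := hL'
    have hparts : parts k = l := by
      unfold parts
      rw [hk, Multiset.filter_eq_self]
      exact fun a ha => hl.2 a ha
    refine hgood (Fin q) k (by rw [hparts]; exact hl.1) (fun _ => ?_) C' L' cls'
      (fun v c => (hL' v c).ge)
    rw [hparts, hmap]
    exact hlm

/-! ### Antichains are finite -/

lemma exists_index (l : List ℕ) (n : ℕ) (h : l.length = n) :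
    ∃ g : Fin n → ℕ, (univ.val.map g : Multiset ℕ) = l := by
  subst h
  exact ⟨fun j => l.get j, by rw [Fin.univ_val_map, List.ofFn_get]⟩

lemma finite_antichain (B : Set (Multiset ℕ)) (hB : ∀ m ∈ B, IsPartition m)
    (hanti : ∀ a ∈ B, ∀ b ∈ B, a ≠ b → ¬ PLe a b) : B.Finite := by
  by_contra hinf
  obtain ⟨m0, hm0⟩ := Set.Infinite.nonempty hinf
  -- the number of parts is bounded
  have h1 : ∀ m ∈ B, m ≠ m0 → Multiset.card m < m0.sum := by
    intro m hm hne
    by_contra hcon
    push Not at hcon
    exact hanti m0 hm0 m hm hne.symm (pLe_of_card m0 m (hB m0 hm0) (hB m hm) hcon)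
  have h2 : (B \ {m0}) ⊆ ⋃ n ∈ (Finset.range m0.sum : Set ℕ), {m ∈ B | Multiset.card m = n} := by
    rintro m ⟨hm, hne⟩
    simp only [Set.mem_iUnion]
    exact ⟨Multiset.card m, Finset.mem_coe.mpr (mem_range.mpr (h1 m hm hne)), hm, rfl⟩
  have h3 : ¬ (B \ {m0}).Finite := fun h => hinf (by
    have := h.union (Set.finite_singleton m0)
    exact this.subset fun x hx => by
      by_cases hxm : x = m0
      · exact Or.inr hxm
      · exact Or.inl ⟨hx, hxm⟩)
  have h4 : ∃ n, ¬ {m ∈ B | Multiset.card m = n}.Finite := by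
    by_contra hcon
    push Not at hcon
    exact h3 ((Set.Finite.biUnion (Finset.finite_toSet _) fun n _ => hcon n).subset h2)
  obtain ⟨n, hn⟩ := h4
  have hn' : {m ∈ B | Multiset.card m = n}.Infinite := hn
  -- an injective sequence
  let x : ℕ → Multiset ℕ := fun i => (hn'.natEmbedding _ i : Multiset ℕ)
  have hx : ∀ i, x i ∈ B ∧ Multiset.card (x i) = n := fun i => (hn'.natEmbedding _ i).2
  have hxinj : Function.Injective x :=
    Subtype.val_injective.comp (hn'.natEmbedding _).injective
  have hg : ∀ i, ∃ g : Fin n → ℕ, (univ.val.map g : Multiset ℕ) = x i := by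
    intro i
    have hlen : (x i).toList.length = n := by rw [Multiset.length_toList, (hx i).2]
    obtain ⟨g, hg⟩ := exists_index (x i).toList n hlen
    exact ⟨g, by rw [hg, Multiset.coe_toList]⟩
  choose g hg using hg
  have hwqo : ∃ i j, i < j ∧ g i ≤ g j := by
    exact wellQuasiOrdered_le (α := Fin n → ℕ) g
  obtain ⟨i, j, hij, hgij⟩ := hwqo
  refine hanti (x i) (hx i).1 (x j) (hx j).1 (fun h => hij.ne (hxinj h)) ?_
  refine ⟨x j, ?_, Relation.ReflTransGen.refl⟩
  rw [← hg i, ← hg j]
  have h5 : ∀ s : Multiset (Fin n), Multiset.Rel (fun a b => a ≤ b) (s.map (g i)) (s.map (g j)) := by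
    intro s
    induction s using Multiset.induction_on with
    | empty => exact Multiset.Rel.zero
    | cons a s ih =>
      rw [Multiset.map_cons, Multiset.map_cons]
      exact Multiset.Rel.cons (hgij a) ih
  exact h5 _

/-! ### Disjoint unions -/

/-- The disjoint union of the graphs `G b`. -/
def unionGraph {B : Type} {Vt : B → Type} (G : ∀ b, SimpleGraph (Vt b)) :
    SimpleGraph (Σ b, Vt b) where
  Adj u v := ∃ (b : B) (x y : Vt b), (G b).Adj x y ∧ u = ⟨b, x⟩ ∧ v = ⟨b, y⟩
  symm := ⟨by
    rintro u v ⟨b, x, y, h, hu, hv⟩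
    exact ⟨b, y, x, h.symm, hv, hu⟩⟩
  loopless := ⟨by
    rintro u ⟨b, x, y, h, hu, hv⟩
    rw [hu] at hv
    have h2 : x = y := eq_of_heq (Sigma.mk.inj_iff.mp hv).2
    rw [h2] at h
    exact (G b).loopless.irrefl y h⟩

/-- The general form of the question. -/
theorem general (A B : Set (Multiset ℕ)) (hA : ∀ m ∈ A, IsPartition m)
    (hB : ∀ m ∈ B, IsPartition m) (hAB : Disjoint A B)
    (hanti : ∀ a ∈ A ∪ B, ∀ b ∈ A ∪ B, a ≠ b → ¬ PLe a b) :
    ∃ (V : Type) (_ : Fintype V) (G : SimpleGraph V),
      (∀ l ∈ A, Choosable G l) ∧ ∀ m ∈ B, ¬ Choosable G m := by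
  classical
  have hfin : B.Finite := finite_antichain B hB fun a ha b hb =>
    hanti a (Or.inr ha) b (Or.inr hb)
  have := hfin.fintype
  have huniv := fun b : B => universal b.1 (hB b.1 b.2)
  choose Vt hVt Gt hbad hgood using huniv
  refine ⟨Σ b : B, Vt b, inferInstance, unionGraph Gt, ?_, ?_⟩
  · intro l hl C _ L hL
    have h1 : ∀ b : B, ∃ f : Vt b → C, (∀ x, f x ∈ L ⟨b, x⟩) ∧
        ∀ x y, (Gt b).Adj x y → f x ≠ f y := by
      intro b
      refine hgood b l (hA l hl) ?_ C (fun x => L ⟨b, x⟩) ?_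
      · refine hanti l (Or.inl hl) b.1 (Or.inr b.2) ?_
        rintro rfl
        exact Set.disjoint_left.mp hAB hl b.2
      · obtain ⟨q, k, cls, hk, hL⟩ := hL
        exact ⟨q, k, cls, hk, fun x i => hL ⟨b, x⟩ i⟩
    choose f hf1 hf2 using h1
    refine ⟨fun v => f v.1 v.2, fun v => hf1 v.1 v.2, ?_⟩
    rintro u v ⟨b, x, y, h, rfl, rfl⟩
    exact hf2 b x y h
  · intro m hm hch
    have h1 := hbad ⟨m, hm⟩
    apply h1
    intro C _ L hL
    rcases isEmpty_or_nonempty (Vt ⟨m, hm⟩) with hemp | ⟨⟨x0⟩⟩
    · exact ⟨fun x => hemp.elim x, fun x => hemp.elim x, fun x => hemp.elim x⟩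
    · let L' : (Σ b : B, Vt b) → Finset C := fun v =>
        if h : v.1 = ⟨m, hm⟩ then L (h ▸ v.2) else L x0
      obtain ⟨q, k, cls, hk, hL⟩ := hL
      obtain ⟨f, hf1, hf2⟩ := hch C L' ⟨q, k, cls, hk, by
        intro v i
        simp only [L']
        split_ifs with h
        · exact hL _ i
        · exact hL x0 i⟩
      refine ⟨fun x => f ⟨⟨m, hm⟩, x⟩, ?_, ?_⟩
      · intro x
        have := hf1 ⟨⟨m, hm⟩, x⟩
        simpa [L'] using this
      · intro x y hxy
        exact hf2 _ _ ⟨⟨m, hm⟩, x, y, hxy, rfl, rfl⟩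

/-- **Main theorem.**  (Q1) For all pairwise incomparable partitions `l₁, l₂, l₃` there is a finite
graph that is `l₁`-choosable and `l₂`-choosable, but not `l₃`-choosable.  (Q2) For all disjoint sets
`A` and `B` of partitions such that any two distinct members of `A ∪ B` are incomparable there is a
finite graph that is `l`-choosable for all `l ∈ A` and not `m`-choosable for all `m ∈ B`. -/
theorem result :
    (∀ l₁ l₂ l₃ : Multiset ℕ, IsPartition l₁ → IsPartition l₂ → IsPartition l₃ →
      ¬ PLe l₁ l₂ → ¬ PLe l₂ l₁ → ¬ PLe l₁ l₃ → ¬ PLe l₃ l₁ → ¬ PLe l₂ l₃ → ¬ PLe l₃ l₂ →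
      ∃ (V : Type) (_ : Fintype V) (G : SimpleGraph V),
        Choosable G l₁ ∧ Choosable G l₂ ∧ ¬ Choosable G l₃) ∧
    (∀ A B : Set (Multiset ℕ), (∀ m ∈ A, IsPartition m) → (∀ m ∈ B, IsPartition m) →
      Disjoint A B → (∀ a ∈ A ∪ B, ∀ b ∈ A ∪ B, a ≠ b → ¬ PLe a b) →
      ∃ (V : Type) (_ : Fintype V) (G : SimpleGraph V),
        (∀ l ∈ A, Choosable G l) ∧ ∀ m ∈ B, ¬ Choosable G m) := by
  refine ⟨?_, general⟩
  intro l₁ l₂ l₃ h1 h2 h3 _ _ h13 _ h23 _
  obtain ⟨V, hV, G, hbad, hgood⟩ := universal l₃ h3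
  exact ⟨V, hV, G, hgood l₁ h1 h13, hgood l₂ h2 h23, hbad⟩

end Pool.Agent.Results.MP_6532c6_co.Separation
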